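import Pool.Agent.Helper76.CV.Goals

open scoped ContDiff
open Filter Topology

namespace Pool.Agent.Helper39.CV.CCS

open Pool.Agent.Helper76.CV

theorem chi_one {P t : ℝ} (hP : 1 ≤ P) (h : t ≤ P / 8) : chi P t = 1 := by
  unfold chi
  apply Real.smoothTransition.one_of_one_le
  have : 8 * t / P ≤ 1 := by
    rw [div_le_one (by linarith)]
    linarith
  linarith

theorem chi_zero {P t : ℝ} (hP : 1 ≤ P) (h : P / 4 ≤ t) : chi P t = 0 := by
  unfold chi
  apply Real.smoothTransition.zero_of_nonpos
  have : 2 ≤ 8 * t / P := by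
    rw [le_div_iff₀ (by linarith)]
    linarith
  linarith

theorem chi_nn (P t : ℝ) : 0 ≤ chi P t := Real.smoothTransition.nonneg _

theorem chi_smooth (P : ℝ) {g : ℝ → ℝ} (hg : ContDiff ℝ ∞ g) : ContDiff ℝ ∞ (fun t => chi P (g t)) := by
  unfold chi
  exact Real.smoothTransition.contDiff.comp
    (contDiff_const.sub ((contDiff_const.mul hg).div_const P))

theorem term_nn (h : HNA) (N : ℕ) (P t : ℝ) :
    0 ≤ ∑ i ∈ Finset.Ico 1 N, chi P (t - i * P) * chi P (i * P - t) * hN (t - i * P) :=
  Finset.sum_nonneg fun i _ => mul_nonneg (mul_nonneg (chi_nn _ _) (chi_nn _ _)) (h.2 _).1.le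

theorem t (h : HNA) : CCS := by
  intro N P hN1 hP
  have hP0 : (0 : ℝ) < P := by linarith
  have hNr : (1 : ℝ) ≤ N := by exact_mod_cast hN1
  refine ⟨?_, ?_, ?_, ?_, ?_, ?_⟩
  · unfold CC
    refine ((chi_smooth P contDiff_id).mul ?_).add ((chi_smooth P ?_).mul ?_) |>.add ?_
    · exact (contDiff_const.mul contDiff_id).neg.exp
    · exact contDiff_const.sub contDiff_id
    · exact (contDiff_const.mul (contDiff_id.sub contDiff_const)).exp
    · refine ContDiff.sum fun i _ => ?_
      refine ((chi_smooth P ?_).mul (chi_smooth P ?_)).mul (h.1.comp ?_)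
      · exact contDiff_id.sub contDiff_const
      · exact contDiff_const.sub contDiff_id
      · exact contDiff_id.sub contDiff_const
  · intro t
    unfold CC
    have := term_nn h N P t
    have := mul_nonneg (chi_nn P t) (Real.exp_pos (-(4 * t))).le
    have := mul_nonneg (chi_nn P (N * P - t)) (Real.exp_pos (4 * (t - N * P))).le
    linarith
  · intro t ht
    unfold CC at ht
    have h1 := term_nn h N P t
    have h2 := mul_nonneg (chi_nn P t) (Real.exp_pos (-(4 * t))).le
    have h3 := mul_nonneg (chi_nn P (N * P - t)) (Real.exp_pos (4 * (t - N * P))).le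
    constructor
    · by_contra hc
      push Not at hc
      rw [chi_one hP (by linarith : t ≤ P / 8), one_mul] at ht
      have : 1 < Real.exp (-(4 * t)) := Real.one_lt_exp_iff.2 (by linarith)
      linarith
    · by_contra hc
      push Not at hc
      rw [chi_one hP (by linarith : N * P - t ≤ P / 8), one_mul] at ht
      have : 1 < Real.exp (4 * (t - N * P)) := Real.one_lt_exp_iff.2 (by linarith)
      linarith
  · intro t ht
    have hev : ∀ᶠ u in 𝓝 t, |u| < P / 8 := continuous_abs.continuousAt.eventually_lt continuousAt_const ht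
    filter_upwards [hev] with u hu
    rw [abs_lt] at hu
    unfold CC
    have hNP : P ≤ N * P := by nlinarith
    rw [chi_one hP hu.2.le, chi_zero hP (by linarith : P / 4 ≤ N * P - u), Finset.sum_eq_zero]
    · ring
    · intro i hi
      have hi1 : (1 : ℝ) ≤ i := by exact_mod_cast (Finset.mem_Ico.1 hi).1
      have hiP : P ≤ i * P := by nlinarith
      rw [chi_zero hP (by linarith : P / 4 ≤ i * P - u)]
      ring
  · intro t ht
    have hev : ∀ᶠ u in 𝓝 t, |u - N * P| < P / 8 :=
      (continuous_abs.comp (continuous_id.sub continuous_const)).continuousAt.eventually_lt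
        continuousAt_const ht
    filter_upwards [hev] with u hu
    rw [abs_lt] at hu
    unfold CC
    have hNP : P ≤ N * P := by nlinarith
    rw [chi_zero hP (by linarith : P / 4 ≤ u), chi_one hP (by linarith : N * P - u ≤ P / 8),
      Finset.sum_eq_zero]
    · ring
    · intro i hi
      have hi1 : (i : ℝ) + 1 ≤ N := by exact_mod_cast (Finset.mem_Ico.1 hi).2
      have hiP : i * P + P ≤ N * P := by nlinarith
      rw [chi_zero hP (by linarith : P / 4 ≤ u - i * P)]
      ring
  · intro i t hi1 hiN ht
    have hev : ∀ᶠ u in 𝓝 t, |u - i * P| < P / 8 :=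
      (continuous_abs.comp (continuous_id.sub continuous_const)).continuousAt.eventually_lt
        continuousAt_const ht
    filter_upwards [hev] with u hu
    rw [abs_lt] at hu
    unfold CC
    have hi1r : (1 : ℝ) ≤ i := by exact_mod_cast hi1
    have hiNr : (i : ℝ) + 1 ≤ N := by exact_mod_cast hiN
    have hiP : P ≤ i * P := by nlinarith
    have hiNP : i * P + P ≤ N * P := by nlinarith
    rw [chi_zero hP (by linarith : P / 4 ≤ u), chi_zero hP (by linarith : P / 4 ≤ N * P - u),
      Finset.sum_eq_single_of_mem i (Finset.mem_Ico.2 ⟨hi1, hiN⟩)]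
    · rw [chi_one hP (by linarith : u - i * P ≤ P / 8), chi_one hP (by linarith : i * P - u ≤ P / 8)]
      ring
    · intro j hj hji
      rcases lt_or_gt_of_ne hji with hlt | hgt
      · have hjr : (j : ℝ) + 1 ≤ i := by exact_mod_cast hlt
        have hjP : j * P + P ≤ i * P := by nlinarith
        rw [chi_zero hP (by linarith : P / 4 ≤ u - j * P)]
        ring
      · have hjr : (i : ℝ) + 1 ≤ j := by exact_mod_cast hgt
        have hjP : i * P + P ≤ j * P := by nlinarith
        rw [chi_zero hP (by linarith : P / 4 ≤ j * P - u)]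
        ring

end Pool.Agent.Helper39.CV.CCS
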